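import Mathlib
import Pool.Agent.H447R2.MZ.Basic

set_option autoImplicit false

/-! # The truncated sums as sums over decreasing tuples -/

namespace Pool.Agent.H447R2.MZ

open Finset Filter Topology

/-- decreasing tuples with entries in `[1, N]` -/
def T (t N : ℕ) : Finset (Fin t → ℕ) :=
  (Fintype.piFinset fun _ => Finset.Icc 1 N).filter StrictAnti

theorem mem_T {t N : ℕ} (m : Fin t → ℕ) : m ∈ T t N ↔ (∀ i, 1 ≤ m i ∧ m i ≤ N) ∧ StrictAnti m := by
  simp [T, Fintype.mem_piFinset]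

theorem strictAnti_cons {t : ℕ} (a : ℕ) (m : Fin t → ℕ) :
    StrictAnti (Fin.cons a m : Fin (t + 1) → ℕ) ↔ (∀ i, m i < a) ∧ StrictAnti m := by
  constructor
  · intro h
    refine ⟨fun i => ?_, fun i j hij => ?_⟩
    · have := h (Fin.succ_pos i)
      simpa using this
    · have := h (Fin.succ_lt_succ_iff.2 hij)
      simpa using this
  · rintro ⟨h1, h2⟩ i j hij
    induction i using Fin.cases with
    | zero =>
      induction j using Fin.cases with
      | zero => exact absurd hij (lt_irrefl _)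
      | succ j => simpa using h1 j
    | succ i =>
      induction j using Fin.cases with
      | zero => exact absurd hij (by simp)
      | succ j =>
        simp only [Fin.cons_succ]
        exact h2 (Fin.succ_lt_succ_iff.1 hij)

theorem sum_T (t : ℕ) (k : Fin t → ℕ) (N : ℕ) :
    ∑ m ∈ T t N, ∏ i, (((m i : ℕ) : ℝ) ^ (k i))⁻¹ = H (List.ofFn k) N := by
  induction t generalizing N with
  | zero =>
    have : T 0 N = Finset.univ := by
      ext m
      simp only [mem_T, Finset.mem_univ, iff_true]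
      exact ⟨fun i => i.elim0, fun i => i.elim0⟩
    rw [this]
    simp [H_nil]
  | succ t ih =>
    rw [List.ofFn_succ, H_cons]
    have h1 : ∀ n ∈ Finset.range N, (((n + 1 : ℕ) : ℝ) ^ (k 0))⁻¹ *
        H (List.ofFn fun i => k i.succ) n =
        ∑ m ∈ T t n, (((n + 1 : ℕ) : ℝ) ^ (k 0))⁻¹ * ∏ i : Fin t, (((m i : ℕ) : ℝ) ^ (k i.succ))⁻¹ := by
      intro n _
      rw [← ih (fun i => k i.succ) n, Finset.mul_sum]
    rw [Finset.sum_congr rfl h1, Finset.sum_sigma']
    symm
    refine Finset.sum_bij' (fun x _ => (Fin.cons (x.1 + 1) x.2 : Fin (t + 1) → ℕ))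
      (fun m _ => ⟨m 0 - 1, fun i => m i.succ⟩) ?_ ?_ ?_ ?_ ?_
    · rintro ⟨n, m⟩ hx
      simp only [Finset.mem_sigma, Finset.mem_range, mem_T] at hx
      obtain ⟨hn, hm1, hm2⟩ := hx
      rw [mem_T]
      refine ⟨fun i => ?_, ?_⟩
      · induction i using Fin.cases with
        | zero => simp only [Fin.cons_zero]; omega
        | succ i =>
          have := hm1 i
          simp only [Fin.cons_succ]; omega
      · rw [strictAnti_cons]
        exact ⟨fun i => Nat.lt_succ_of_le (hm1 i).2, hm2⟩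
    · intro m hm
      rw [mem_T] at hm
      obtain ⟨h1, h2⟩ := hm
      have h0 := h1 0
      simp only [Finset.mem_sigma, Finset.mem_range, mem_T]
      refine ⟨by omega, fun i => ⟨(h1 i.succ).1, ?_⟩, fun i j hij => h2 (Fin.succ_lt_succ_iff.2 hij)⟩
      have := h2 (Fin.succ_pos i)
      omega
    · rintro ⟨n, m⟩ hx
      simp
    · intro m hm
      rw [mem_T] at hm
      have h0 := hm.1 0
      funext i
      induction i using Fin.cases with
      | zero => simp only [Fin.cons_zero]; omega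
      | succ i => simp
    · rintro ⟨n, m⟩ hx
      rw [Fin.prod_univ_succ]
      simp

/-- the finset of decreasing tuples bounded by `N`, in the subtype of all decreasing tuples -/
def TS (t N : ℕ) : Finset {m : Fin t → ℕ // StrictAnti m ∧ ∀ i, 1 ≤ m i} :=
  (T t N).subtype _

theorem mem_TS {t N : ℕ} (m : {m : Fin t → ℕ // StrictAnti m ∧ ∀ i, 1 ≤ m i}) :
    m ∈ TS t N ↔ ∀ i, m.1 i ≤ N := by
  rw [TS, Finset.mem_subtype, mem_T]
  constructor
  · intro h i
    exact (h.1 i).2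
  · intro h
    exact ⟨fun i => ⟨m.2.2 i, h i⟩, m.2.1⟩

theorem sum_TS (t : ℕ) (k : Fin t → ℕ) (N : ℕ) :
    ∑ m ∈ TS t N, ∏ i, (((m.1 i : ℕ) : ℝ) ^ (k i))⁻¹ = H (List.ofFn k) N := by
  rw [← sum_T, TS]
  exact Finset.sum_subtype_of_mem (fun m : Fin t → ℕ => ∏ i, (((m i : ℕ) : ℝ) ^ (k i))⁻¹)
    (fun m hm => ⟨((mem_T m).1 hm).2, fun i => (((mem_T m).1 hm).1 i).1⟩)

theorem TS_mono (t : ℕ) : Monotone (TS t) := by
  intro a b hab m hm
  rw [mem_TS] at hm ⊢
  exact fun i => (hm i).trans hab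

theorem TS_exhaust (t : ℕ) (m : {m : Fin t → ℕ // StrictAnti m ∧ ∀ i, 1 ≤ m i}) :
    ∃ N, m ∈ TS t N := by
  refine ⟨∑ i, m.1 i, ?_⟩
  rw [mem_TS]
  intro i
  exact Finset.single_le_sum (f := fun i => m.1 i) (fun j _ => Nat.zero_le _) (Finset.mem_univ i)

theorem hasSum_val (t : ℕ) (k : Fin t → ℕ) (hk : Adm (List.ofFn k)) :
    HasSum (fun m : {m : Fin t → ℕ // StrictAnti m ∧ ∀ i, 1 ≤ m i} =>
      ∏ i, (((m.1 i : ℕ) : ℝ) ^ (k i))⁻¹) (val (List.ofFn k)) := by
  have htend : Tendsto (TS t) atTop atTop :=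
    tendsto_atTop_finset_of_monotone (TS_mono t) (TS_exhaust t)
  have hnn : ∀ m : {m : Fin t → ℕ // StrictAnti m ∧ ∀ i, 1 ≤ m i},
      0 ≤ ∏ i, (((m.1 i : ℕ) : ℝ) ^ (k i))⁻¹ := fun m =>
    Finset.prod_nonneg fun i _ => by positivity
  have hsum : Summable (fun m : {m : Fin t → ℕ // StrictAnti m ∧ ∀ i, 1 ≤ m i} =>
      ∏ i, (((m.1 i : ℕ) : ℝ) ^ (k i))⁻¹) := by
    apply summable_of_sum_le hnn (c := val (List.ofFn k))
    intro u
    obtain ⟨N, hN⟩ := (htend.eventually_ge_atTop u).exists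
    calc _ ≤ ∑ m ∈ TS t N, ∏ i, (((m.1 i : ℕ) : ℝ) ^ (k i))⁻¹ :=
          Finset.sum_le_sum_of_subset_of_nonneg hN (fun m _ _ => hnn m)
      _ = H (List.ofFn k) N := sum_TS t k N
      _ ≤ _ := H_le_val _ hk N
  have h1 := hsum.hasSum.comp htend
  have h2 : Tendsto (fun N => H (List.ofFn k) N) atTop (𝓝 (∑' m : {m : Fin t → ℕ //
      StrictAnti m ∧ ∀ i, 1 ≤ m i}, ∏ i, (((m.1 i : ℕ) : ℝ) ^ (k i))⁻¹)) := by
    refine h1.congr fun N => ?_
    simp only [Function.comp]
    exact sum_TS t k N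
  have h3 := tendsto_nhds_unique h2 (tendsto_H _ hk)
  rw [← h3]
  exact hsum.hasSum

/-- the index set of `Zs` in terms of lists -/
theorem Zs_eq (n : ℕ) : Zs n = Submodule.span ℚ {x : ℝ | ∃ s : List ℕ, Adm s ∧ s.sum = n ∧ x = val s} := by
  unfold Zs
  congr 1
  ext x
  constructor
  · rintro ⟨t, k, h1, h2, h3, rfl⟩
    have hk : Adm (List.ofFn k) := by
      refine ⟨fun a ha => ?_, fun a s hs => ?_⟩
      · rw [List.mem_ofFn] at ha
        obtain ⟨i, rfl⟩ := ha
        exact h1 i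
      · rcases t with _ | t
        · simp at hs
        · rw [List.ofFn_succ] at hs
          have := h2 (Nat.succ_pos t)
          have e := (List.cons.inj hs).1
          rw [← e]
          exact this
    exact ⟨List.ofFn k, hk, by rw [List.sum_ofFn, h3], (hasSum_val t k hk).tsum_eq⟩
  · rintro ⟨s, hs, h3, rfl⟩
    refine ⟨s.length, s.get, fun i => hs.1 _ (List.get_mem s i), fun h => ?_, ?_, ?_⟩
    · rcases s with _ | ⟨a, s⟩
      · simp at h
      · exact hs.2 a s rfl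
    · rw [← List.sum_ofFn, List.ofFn_get, h3]
    · have hk : Adm (List.ofFn s.get) := by rw [List.ofFn_get]; exact hs
      rw [(hasSum_val s.length s.get hk).tsum_eq, List.ofFn_get]

theorem val_mem (s : List ℕ) (hs : Adm s) : val s ∈ Zs s.sum := by
  rw [Zs_eq]
  exact Submodule.subset_span ⟨s, hs, rfl, rfl⟩

/-- the product of the weight spaces -/
theorem mul_mem (a b : ℕ) (x y : ℝ) (hx : x ∈ Zs a) (hy : y ∈ Zs b) : x * y ∈ Zs (a + b) := by
  have hab : Zs a * Zs b ≤ Zs (a + b) := by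
    rw [Zs_eq a, Zs_eq b, Submodule.span_mul_span, Submodule.span_le]
    rintro _ ⟨_, ⟨s, hs, hsa, rfl⟩, _, ⟨t, ht, htb, rfl⟩, rfl⟩
    simp only [SetLike.mem_coe]
    rw [val_mul s t hs ht]
    refine list_sum_mem fun z hz => ?_
    rw [List.mem_map] at hz
    obtain ⟨u, hu, rfl⟩ := hz
    have := val_mem u (st_adm s t hs ht u hu)
    rwa [st_sum s t u hu, hsa, htb] at this
  exact hab (Submodule.mul_mem_mul hx hy)

theorem one_mem : (1 : ℝ) ∈ Zs 0 := by
  have h : Adm [] := ⟨by simp, by simp⟩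
  have := val_mem [] h
  have e : val [] = 1 := by
    have h1 := tendsto_H [] h
    have h2 : Tendsto (H []) atTop (𝓝 1) := by
      have : H [] = fun _ => 1 := by funext N; exact H_nil N
      rw [this]
      exact tendsto_const_nhds
    exact tendsto_nhds_unique h1 h2
  rw [e] at this
  simpa using this

theorem pow_mem (a : ℕ) (x : ℝ) (hx : x ∈ Zs a) (i : ℕ) : x ^ i ∈ Zs (a * i) := by
  induction i with
  | zero => simpa using one_mem
  | succ i ih =>
    rw [pow_succ, Nat.mul_succ]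
    exact mul_mem _ _ _ _ ih hx

/-- one variable zeta values -/
theorem val_single (a : ℕ) (ha : 2 ≤ a) :
    HasSum (fun n : ℕ => (1 : ℝ) / ((n : ℝ) + 1) ^ a) (val [a]) := by
  have h : Adm [a] := ⟨by simp; omega, by
    intro b t hb
    simp only [List.cons.injEq] at hb
    omega⟩
  have h1 := tendsto_H [a] h
  rw [hasSum_iff_tendsto_nat_of_nonneg (fun n => by positivity)]
  refine h1.congr fun N => ?_
  rw [H_cons]
  apply Finset.sum_congr rfl
  intro n _
  rw [H_nil]
  push_cast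
  ring

theorem zeta_mem (a : ℕ) (ha : 2 ≤ a) : (∑' n : ℕ, (1 : ℝ) / ((n : ℝ) + 1) ^ a) ∈ Zs a := by
  rw [(val_single a ha).tsum_eq]
  have h : Adm [a] := ⟨by simp; omega, by
    intro b t hb
    simp only [List.cons.injEq] at hb
    omega⟩
  simpa using val_mem [a] h

theorem zeta_two : (∑' n : ℕ, (1 : ℝ) / ((n : ℝ) + 1) ^ 2) = Real.pi ^ 2 / 6 := by
  have h := hasSum_zeta_two
  have h2 := (hasSum_nat_add_iff' (f := fun n : ℕ => (1 : ℝ) / (n : ℝ) ^ 2) 1).2 h
  simp only [Finset.range_one, Finset.sum_singleton, Nat.cast_zero] at h2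
  have h3 := h2.tsum_eq
  push_cast at h3
  rw [h3]
  norm_num

theorem pi_sq_mem : Real.pi ^ 2 ∈ Zs 2 := by
  have h := zeta_mem 2 le_rfl
  rw [zeta_two] at h
  have := Submodule.smul_mem (Zs 2) (6 : ℚ) h
  have e : (6 : ℚ) • (Real.pi ^ 2 / 6) = Real.pi ^ 2 := by
    rw [Rat.smul_def]
    push_cast
    ring
  rwa [e] at this

/-- `ζ(3)` -/
noncomputable def z3 : ℝ := ∑' n : ℕ, (1 : ℝ) / ((n : ℝ) + 1) ^ 3

theorem z3_mem : z3 ∈ Zs 3 := zeta_mem 3 (by norm_num)

theorem zeta_pos (a : ℕ) (ha : 2 ≤ a) : 0 < ∑' n : ℕ, (1 : ℝ) / ((n : ℝ) + 1) ^ a := by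
  apply (val_single a ha).summable.tsum_pos (fun n => by positivity) 0
  simp

theorem z3_pos : 0 < z3 := zeta_pos 3 (by norm_num)

end Pool.Agent.H447R2.MZ
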