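import Mathlib
import Pool.Agent.H447R2.MZ.Tup
import Pool.Agent.H340R2.LW

set_option autoImplicit false

/-! # Dichotomies for the spaces of multiple zeta values -/

namespace Pool.Agent.H447R2.MZ

open Finset Filter Topology Polynomial

theorem pow_linInd (x : ℝ) (hx : Transcendental ℚ x) : LinearIndependent ℚ (fun i : ℕ => x ^ i) := by
  have hinj := transcendental_iff_injective.1 hx
  have h1 := (Polynomial.basisMonomials ℚ).linearIndependent.map' (Polynomial.aeval x).toLinearMap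
    (LinearMap.ker_eq_bot.2 hinj)
  have e : (fun i : ℕ => x ^ i) =
      ⇑(Polynomial.aeval x).toLinearMap ∘ ⇑(Polynomial.basisMonomials ℚ) := by
    funext i
    simp [Polynomial.aeval_monomial]
  rw [e]
  exact h1

theorem rank_ge {n M : ℕ} (v : Fin M → ℝ) (hv : LinearIndependent ℚ v) (hm : ∀ i, v i ∈ Zs n) :
    (M : Cardinal) ≤ Module.rank ℚ (Zs n) := by
  let w : Fin M → Zs n := fun i => ⟨v i, hm i⟩
  have hw : LinearIndependent ℚ w := LinearIndependent.of_comp (Zs n).subtype hv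
  have := hw.cardinal_le_rank
  simpa using this

theorem pow_rank_ge {n M : ℕ} (c x : ℝ) (hc : c ≠ 0) (hx : Transcendental ℚ x)
    (hm : ∀ i < M, c * x ^ i ∈ Zs n) : (M : Cardinal) ≤ Module.rank ℚ (Zs n) := by
  apply rank_ge (fun i : Fin M => c * x ^ (i : ℕ)) _ (fun i => hm i i.2)
  have h1 : LinearIndependent ℚ (fun i : Fin M => x ^ (i : ℕ)) :=
    (pow_linInd x hx).comp _ Fin.val_injective
  have h2 := h1.map' (LinearMap.mulLeft ℚ c) (LinearMap.ker_eq_bot.2 (mul_right_injective₀ hc))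
  exact h2

theorem pi_pow_mem (i : ℕ) : Real.pi ^ (2 * i) ∈ Zs (2 * i) := by
  rw [pow_mul]
  exact pow_mem 2 _ pi_sq_mem i

/-- Growth: if some element `z` of weight `k` has `z / π ^ k` transcendental. -/
theorem growth (k : ℕ) (z : ℝ) (hz : z ∈ Zs k) (ht : Transcendental ℚ (z / Real.pi ^ k))
    (n : ℕ) (hn : 2 ≤ n) :
    (((n - 3 * (n % 2)) / (2 * k) + 1 : ℕ) : Cardinal) ≤ Module.rank ℚ (Zs n) := by
  have hx : Transcendental ℚ ((z / Real.pi ^ k) ^ 2) := ht.pow (by norm_num)
  have hpi : Real.pi ≠ 0 := Real.pi_ne_zero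
  have hz2 : z ^ 2 ∈ Zs (2 * k) := by
    have := pow_mem k z hz 2
    rwa [mul_comm k 2] at this
  rcases Nat.even_or_odd' n with ⟨m, rfl | rfl⟩
  · have hmod : 2 * m % 2 = 0 := by omega
    rw [hmod]
    simp only [mul_zero, Nat.sub_zero]
    apply pow_rank_ge (Real.pi ^ (2 * m)) _ (pow_ne_zero _ hpi) hx
    intro i hi
    have hi2 : 2 * k * i ≤ 2 * m := by
      have h1 : i ≤ 2 * m / (2 * k) := by omega
      calc 2 * k * i ≤ 2 * k * (2 * m / (2 * k)) := Nat.mul_le_mul_left _ h1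
        _ ≤ 2 * m := Nat.mul_div_le _ _
    have hki : k * i ≤ m := by nlinarith
    have h1 := mul_mem _ _ _ _ (pow_mem (2 * k) _ hz2 i) (pi_pow_mem (m - k * i))
    have e1 : 2 * k * i + 2 * (m - k * i) = 2 * m := by
      rw [Nat.mul_assoc, ← Nat.mul_add]
      congr 1
      omega
    rw [e1] at h1
    have e2 : Real.pi ^ (2 * m) = Real.pi ^ (2 * (k * i)) * Real.pi ^ (2 * (m - k * i)) := by
      rw [← pow_add]; congr 1; rw [← e1]; ring
    have e3 : Real.pi ^ (2 * m) * ((z / Real.pi ^ k) ^ 2) ^ i =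
        (z ^ 2) ^ i * Real.pi ^ (2 * (m - k * i)) := by
      rw [e2, div_pow, div_pow]
      have : ((Real.pi ^ k) ^ 2) ^ i = Real.pi ^ (2 * (k * i)) := by
        rw [← pow_mul, ← pow_mul]; congr 1; ring
      rw [this]
      field_simp
    rw [e3]
    exact h1
  · have hmod : (2 * m + 1) % 2 = 1 := by omega
    rw [hmod]
    simp only [mul_one]
    have hm1 : 1 ≤ m := by omega
    have e0 : 2 * m + 1 - 3 = 2 * (m - 1) := by omega
    rw [e0]
    apply pow_rank_ge (z3 * Real.pi ^ (2 * (m - 1))) _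
      (mul_ne_zero z3_pos.ne' (pow_ne_zero _ hpi)) hx
    intro i hi
    have hi2 : 2 * k * i ≤ 2 * (m - 1) := by
      have h1 : i ≤ 2 * (m - 1) / (2 * k) := by omega
      calc 2 * k * i ≤ 2 * k * (2 * (m - 1) / (2 * k)) := Nat.mul_le_mul_left _ h1
        _ ≤ _ := Nat.mul_div_le _ _
    have hki : k * i ≤ m - 1 := by nlinarith
    have h1 := mul_mem _ _ _ _ z3_mem
      (mul_mem _ _ _ _ (pow_mem (2 * k) _ hz2 i) (pi_pow_mem (m - 1 - k * i)))
    have e1 : 3 + (2 * k * i + 2 * (m - 1 - k * i)) = 2 * m + 1 := by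
      rw [Nat.mul_assoc, ← Nat.mul_add]
      omega
    rw [e1] at h1
    have e2 : Real.pi ^ (2 * (m - 1)) =
        Real.pi ^ (2 * (k * i)) * Real.pi ^ (2 * (m - 1 - k * i)) := by
      rw [← pow_add]; congr 1; omega
    have e3 : z3 * Real.pi ^ (2 * (m - 1)) * ((z / Real.pi ^ k) ^ 2) ^ i =
        z3 * ((z ^ 2) ^ i * Real.pi ^ (2 * (m - 1 - k * i))) := by
      rw [e2, div_pow, div_pow]
      have : ((Real.pi ^ k) ^ 2) ^ i = Real.pi ^ (2 * (k * i)) := by
        rw [← pow_mul, ← pow_mul]; congr 1; ring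
      rw [this]
      field_simp
    rw [e3]
    exact h1

theorem Zs_zero {x : ℝ} (hx : x ∈ Zs 0) : ∃ q : ℚ, x = q := by
  rw [Zs_eq] at hx
  induction hx using Submodule.span_induction with
  | mem x hx =>
    obtain ⟨s, hs, h0, rfl⟩ := hx
    rcases s with _ | ⟨a, s⟩
    · refine ⟨1, ?_⟩
      have h1 := tendsto_H [] hs
      have h2 : Tendsto (H []) atTop (𝓝 1) := by
        have : H [] = fun _ => 1 := by funext N; exact H_nil N
        rw [this]
        exact tendsto_const_nhds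
      rw [tendsto_nhds_unique h1 h2]
      simp
    · have := hs.1 a (by simp)
      simp only [List.sum_cons] at h0
      omega
  | zero => exact ⟨0, by simp⟩
  | add x y _ _ hx hy =>
    obtain ⟨p, rfl⟩ := hx
    obtain ⟨q, rfl⟩ := hy
    exact ⟨p + q, by push_cast; rfl⟩
  | smul a x _ hx =>
    obtain ⟨q, rfl⟩ := hx
    exact ⟨a * q, by rw [Rat.smul_def]; push_cast; rfl⟩

theorem Zs_one {x : ℝ} (hx : x ∈ Zs 1) : x = 0 := by
  rw [Zs_eq] at hx
  induction hx using Submodule.span_induction with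
  | mem x hx =>
    obtain ⟨s, hs, h0, rfl⟩ := hx
    exfalso
    rcases s with _ | ⟨a, s⟩
    · simp at h0
    · have := hs.2 a s rfl
      simp only [List.sum_cons] at h0
      omega
  | zero => rfl
  | add x y _ _ hx hy => rw [hx, hy, add_zero]
  | smul a x _ hx => rw [hx, smul_zero]

theorem Zs_two {x : ℝ} (hx : x ∈ Zs 2) : ∃ q : ℚ, x = q * Real.pi ^ 2 := by
  rw [Zs_eq] at hx
  induction hx using Submodule.span_induction with
  | mem x hx =>
    obtain ⟨s, hs, h0, rfl⟩ := hx
    have hs2 : s = [2] := by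
      rcases s with _ | ⟨a, s⟩
      · simp at h0
      · have h1 := hs.2 a s rfl
        simp only [List.sum_cons] at h0
        have ha : a = 2 := by omega
        rcases s with _ | ⟨b, s⟩
        · rw [ha]
        · have := hs.1 b (by simp)
          simp only [List.sum_cons] at h0
          omega
    subst hs2
    refine ⟨1 / 6, ?_⟩
    rw [← (val_single 2 le_rfl).tsum_eq, zeta_two]
    push_cast
    ring
  | zero => exact ⟨0, by simp⟩
  | add x y _ _ hx hy =>
    obtain ⟨p, rfl⟩ := hx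
    obtain ⟨q, rfl⟩ := hy
    exact ⟨p + q, by push_cast; ring⟩
  | smul a x _ hx =>
    obtain ⟨q, rfl⟩ := hx
    exact ⟨a * q, by rw [Rat.smul_def]; push_cast; ring⟩

/-- `π` satisfies no nontrivial polynomial equation with algebraic coefficients. -/
theorem pi_indep (p : ℕ) (c : ℕ → ℝ) (hc : ∀ j ≤ p, IsAlgebraic ℚ (c j))
    (h : ∑ j ∈ Finset.range (p + 1), c j * Real.pi ^ j = 0) : ∀ j ≤ p, c j = 0 := by
  classical
  have ht : Transcendental (algebraicClosure ℚ ℝ) Real.pi :=
    Pool.Agent.H340R2.LW.transcendental_pi.algebraicClosure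
  rw [transcendental_iff] at ht
  let d : ℕ → algebraicClosure ℚ ℝ := fun j =>
    if hj : j ≤ p then ⟨c j, (mem_algebraicClosure_iff).2 (hc j hj)⟩ else 0
  let P : (algebraicClosure ℚ ℝ)[X] := ∑ j ∈ Finset.range (p + 1), Polynomial.monomial j (d j)
  have hP : Polynomial.aeval Real.pi P = 0 := by
    simp only [P, map_sum, Polynomial.aeval_monomial]
    rw [← h]
    apply Finset.sum_congr rfl
    intro j hj
    have hj' : j ≤ p := by simpa [Nat.lt_succ_iff] using hj
    simp only [d, hj', dif_pos]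
    rfl
  have h0 := ht P hP
  intro j hj
  have h1 : P.coeff j = d j := by
    simp only [P, Polynomial.finsetSum_coeff, Polynomial.coeff_monomial]
    rw [Finset.sum_ite_eq']
    simp [hj]
  rw [h0, Polynomial.coeff_zero] at h1
  have h2 : ((d j : algebraicClosure ℚ ℝ) : ℝ) = 0 := by rw [← h1]; rfl
  simpa [d, hj] using h2

/-- The sum of the weight spaces up to `p` is direct. -/
def Direct (p : ℕ) : Prop :=
  ∀ z : ℕ → ℝ, (∀ j ≤ p, z j ∈ Zs j) → (∑ j ∈ Finset.range (p + 1), z j) = 0 → ∀ j ≤ p, z j = 0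

theorem direct_of_algebraic (p : ℕ)
    (h : ∀ j ≤ p, ∀ z ∈ Zs j, IsAlgebraic ℚ (z / Real.pi ^ j)) : Direct p := by
  intro z hz hs j hj
  have h1 := pi_indep p (fun j => z j / Real.pi ^ j) (fun j hj => h j hj _ (hz j hj)) (by
    rw [← hs]
    apply Finset.sum_congr rfl
    intro j _
    have : Real.pi ^ j ≠ 0 := pow_ne_zero _ Real.pi_ne_zero
    field_simp) j hj
  have : Real.pi ^ j ≠ 0 := pow_ne_zero _ Real.pi_ne_zero
  simpa [this] using h1

/-- Either the sum of the weight spaces up to weight `p` is direct, or some combination `z` of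
multiple zeta values of a weight `3 ≤ k ≤ p` has `z / π ^ k` transcendental. -/
theorem direct_or (p : ℕ) : Direct p ∨
    ∃ k, 3 ≤ k ∧ k ≤ p ∧ ∃ z ∈ Zs k, Transcendental ℚ (z / Real.pi ^ k) := by
  by_cases h : ∀ j ≤ p, ∀ z ∈ Zs j, IsAlgebraic ℚ (z / Real.pi ^ j)
  · exact Or.inl (direct_of_algebraic p h)
  · right
    push Not at h
    obtain ⟨k, hk, z, hz, ht⟩ := h
    refine ⟨k, ?_, hk, z, hz, ht⟩
    by_contra hlt
    interval_cases k
    · obtain ⟨q, rfl⟩ := Zs_zero hz
      apply ht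
      simpa using (isAlgebraic_ratCast ℚ q : IsAlgebraic ℚ ((q : ℝ)))
    · apply ht
      rw [Zs_one hz, zero_div]
      exact isAlgebraic_zero
    · obtain ⟨q, rfl⟩ := Zs_two hz
      apply ht
      have : (q : ℝ) * Real.pi ^ 2 / Real.pi ^ 2 = q := by
        have : Real.pi ^ 2 ≠ 0 := pow_ne_zero _ Real.pi_ne_zero
        field_simp
      rw [this]
      exact isAlgebraic_ratCast ℚ q

end Pool.Agent.H447R2.MZ
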