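import Mathlib
import Pool.Agent.H447R2.MZ.Dich

set_option autoImplicit false

/-! # The case of bounded dimensions -/

namespace Pool.Agent.H447R2.MZ

open Finset Filter Topology Polynomial

/-! ### Finite dimensionality -/

theorem finite_lists (n : ℕ) : Set.Finite {s : List ℕ | (∀ a ∈ s, 1 ≤ a) ∧ s.sum = n} := by
  induction n using Nat.strong_induction_on with
  | _ n ih =>
    have hsub : {s : List ℕ | (∀ a ∈ s, 1 ≤ a) ∧ s.sum = n} ⊆
        {[]} ∪ ⋃ a ∈ Finset.Icc 1 n,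
          (List.cons a) '' {s : List ℕ | (∀ b ∈ s, 1 ≤ b) ∧ s.sum = n - a} := by
      rintro s ⟨h1, h2⟩
      rcases s with _ | ⟨a, s⟩
      · left; rfl
      · right
        simp only [List.sum_cons] at h2
        have ha : 1 ≤ a := h1 a (by simp)
        simp only [Set.mem_iUnion, Finset.mem_Icc]
        exact ⟨a, ⟨ha, by omega⟩, s, ⟨fun b hb => h1 b (by simp [hb]), by omega⟩, rfl⟩
    refine Set.Finite.subset ?_ hsub
    apply Set.Finite.union (Set.finite_singleton _)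
    apply Set.Finite.biUnion (Finset.finite_toSet _)
    intro a ha
    apply Set.Finite.image
    have ha' := Finset.mem_Icc.1 ha
    exact ih (n - a) (by omega)

theorem finite_Zs (n : ℕ) : Module.Finite ℚ (Zs n) := by
  rw [Zs_eq]
  apply Module.Finite.span_of_finite
  have : {x : ℝ | ∃ s : List ℕ, Adm s ∧ s.sum = n ∧ x = val s} ⊆
      val '' {s : List ℕ | (∀ a ∈ s, 1 ≤ a) ∧ s.sum = n} := by
    rintro x ⟨s, hs, h, rfl⟩
    exact ⟨s, ⟨hs.1, h⟩, rfl⟩
  exact ((finite_lists n).image _).subset this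

/-- A nonzero element of each weight except `1`. -/
theorem exists_ne (r : ℕ) (hr : r ≠ 1) : ∃ c ∈ Zs r, c ≠ 0 := by
  have hpi : Real.pi ≠ 0 := Real.pi_ne_zero
  rcases Nat.even_or_odd' r with ⟨m, rfl | rfl⟩
  · exact ⟨Real.pi ^ (2 * m), pi_pow_mem m, pow_ne_zero _ hpi⟩
  · have hm : 1 ≤ m := by omega
    refine ⟨z3 * Real.pi ^ (2 * (m - 1)), ?_, mul_ne_zero z3_pos.ne' (pow_ne_zero _ hpi)⟩
    have := mul_mem _ _ _ _ z3_mem (pi_pow_mem (m - 1))
    have e : 3 + 2 * (m - 1) = 2 * m + 1 := by omega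
    rwa [e] at this

theorem finrank_le_of_mul {V W : Submodule ℚ ℝ} [Module.Finite ℚ W] (c : ℝ) (hc : c ≠ 0)
    (h : ∀ x ∈ V, c * x ∈ W) : Module.finrank ℚ V ≤ Module.finrank ℚ W := by
  let f : V →ₗ[ℚ] W := ((LinearMap.mulLeft ℚ c).domRestrict V).codRestrict W (fun x => h x x.2)
  have hf : Function.Injective f := by
    intro x y hxy
    have h1 : c * (x : ℝ) = c * (y : ℝ) := congrArg (Subtype.val) hxy
    exact Subtype.ext (mul_left_cancel₀ hc h1)
  exact LinearMap.finrank_le_finrank_of_injective hf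

theorem finrank_mono {n n' : ℕ} (h : n + 2 ≤ n') :
    Module.finrank ℚ (Zs n) ≤ Module.finrank ℚ (Zs n') := by
  obtain ⟨c, hc, hc0⟩ := exists_ne (n' - n) (by omega)
  have := finite_Zs n'
  apply finrank_le_of_mul c hc0
  intro x hx
  have := mul_mem _ _ _ _ hc hx
  have e : n' - n + n = n' := by omega
  rwa [e] at this

/-- `A m` : the numbers `x` with `x π ^ (2 m)` of weight `2 m` -/
noncomputable def A (m : ℕ) : Submodule ℚ ℝ :=
  (Zs (2 * m)).comap (LinearMap.mulLeft ℚ (Real.pi ^ (2 * m)))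

theorem mem_A {m : ℕ} {x : ℝ} : x ∈ A m ↔ Real.pi ^ (2 * m) * x ∈ Zs (2 * m) := by
  simp [A]

/-- `B m` : the numbers `x` with `x ζ(3) π ^ (2 m)` of weight `2 m + 3` -/
noncomputable def B (m : ℕ) : Submodule ℚ ℝ :=
  (Zs (2 * m + 3)).comap (LinearMap.mulLeft ℚ (z3 * Real.pi ^ (2 * m)))

theorem mem_B {m : ℕ} {x : ℝ} : x ∈ B m ↔ z3 * Real.pi ^ (2 * m) * x ∈ Zs (2 * m + 3) := by
  rw [B, Submodule.mem_comap, LinearMap.mulLeft_apply]

theorem finite_comap (V : Submodule ℚ ℝ) [Module.Finite ℚ V] (c : ℝ) (hc : c ≠ 0) :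
    Module.Finite ℚ (V.comap (LinearMap.mulLeft ℚ c)) := by
  let f : V.comap (LinearMap.mulLeft ℚ c) →ₗ[ℚ] V :=
    ((LinearMap.mulLeft ℚ c).domRestrict _).codRestrict V (fun x => x.2)
  have hf : Function.Injective f := by
    intro x y hxy
    have h1 : c * (x : ℝ) = c * (y : ℝ) := congrArg (Subtype.val) hxy
    exact Subtype.ext (mul_left_cancel₀ hc h1)
  exact Module.Finite.of_injective f hf

theorem cA_ne (m : ℕ) : Real.pi ^ (2 * m) ≠ 0 := pow_ne_zero _ Real.pi_ne_zero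
theorem cB_ne (m : ℕ) : z3 * Real.pi ^ (2 * m) ≠ 0 := mul_ne_zero z3_pos.ne' (cA_ne m)

theorem finite_A (m : ℕ) : Module.Finite ℚ (A m) := by
  have := finite_Zs (2 * m)
  exact finite_comap _ _ (cA_ne m)

theorem finite_B (m : ℕ) : Module.Finite ℚ (B m) := by
  have := finite_Zs (2 * m + 3)
  exact finite_comap _ _ (cB_ne m)

theorem finrank_A (m : ℕ) : Module.finrank ℚ (A m) = Module.finrank ℚ (Zs (2 * m)) := by
  have := finite_Zs (2 * m)
  have := finite_A m
  apply le_antisymm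
  · exact finrank_le_of_mul _ (cA_ne m) (fun x hx => mem_A.1 hx)
  · apply finrank_le_of_mul (Real.pi ^ (2 * m))⁻¹ (inv_ne_zero (cA_ne m))
    intro x hx
    rw [mem_A, ← mul_assoc, mul_inv_cancel₀ (cA_ne m), one_mul]
    exact hx

theorem finrank_B (m : ℕ) : Module.finrank ℚ (B m) = Module.finrank ℚ (Zs (2 * m + 3)) := by
  have := finite_Zs (2 * m + 3)
  have := finite_B m
  apply le_antisymm
  · exact finrank_le_of_mul _ (cB_ne m) (fun x hx => mem_B.1 hx)
  · apply finrank_le_of_mul (z3 * Real.pi ^ (2 * m))⁻¹ (inv_ne_zero (cB_ne m))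
    intro x hx
    rw [mem_B, ← mul_assoc, mul_inv_cancel₀ (cB_ne m), one_mul]
    exact hx

theorem A_mono : Monotone A := by
  refine monotone_nat_of_le_succ fun m x hx => ?_
  rw [mem_A] at hx ⊢
  have := mul_mem _ _ _ _ pi_sq_mem hx
  have e : 2 + 2 * m = 2 * (m + 1) := by ring
  rw [e] at this
  have e2 : Real.pi ^ (2 * (m + 1)) * x = Real.pi ^ 2 * (Real.pi ^ (2 * m) * x) := by
    rw [← mul_assoc, ← pow_add]; congr 2; ring
  rwa [e2]

theorem B_mono : Monotone B := by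
  refine monotone_nat_of_le_succ fun m x hx => ?_
  rw [mem_B] at hx ⊢
  have := mul_mem _ _ _ _ pi_sq_mem hx
  have e : 2 + (2 * m + 3) = 2 * (m + 1) + 3 := by ring
  rw [e] at this
  have e2 : z3 * Real.pi ^ (2 * (m + 1)) * x = Real.pi ^ 2 * (z3 * Real.pi ^ (2 * m) * x) := by
    have : Real.pi ^ (2 * (m + 1)) = Real.pi ^ 2 * Real.pi ^ (2 * m) := by
      rw [← pow_add]; congr 1; ring
    rw [this]; ring
  rwa [e2]

theorem A_mul {m n : ℕ} {x y : ℝ} (hx : x ∈ A m) (hy : y ∈ A n) : x * y ∈ A (m + n) := by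
  rw [mem_A] at hx hy ⊢
  have := mul_mem _ _ _ _ hx hy
  have e : 2 * m + 2 * n = 2 * (m + n) := by ring
  rw [e] at this
  have e2 : Real.pi ^ (2 * (m + n)) * (x * y) =
      Real.pi ^ (2 * m) * x * (Real.pi ^ (2 * n) * y) := by
    rw [← e, pow_add]; ring
  rwa [e2]

theorem one_mem_A (m : ℕ) : (1 : ℝ) ∈ A m := by
  rw [mem_A, mul_one]
  exact pi_pow_mem m

theorem one_mem_B (m : ℕ) : (1 : ℝ) ∈ B m := by
  rw [mem_B, mul_one]
  have := mul_mem _ _ _ _ z3_mem (pi_pow_mem m)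
  rwa [Nat.add_comm] at this

/-- an increasing sequence of subspaces with bounded dimensions is eventually constant -/
theorem eventually_const (V : ℕ → Submodule ℚ ℝ) (hV : Monotone V)
    (hf : ∀ m, Module.Finite ℚ (V m)) (b : ℕ) (hb : ∀ m, Module.finrank ℚ (V m) ≤ b) :
    ∃ M, ∀ m, M ≤ m → V m = V M := by
  obtain ⟨M, hM⟩ : ∃ M, ∀ m, Module.finrank ℚ (V m) ≤ Module.finrank ℚ (V M) := by
    have hne : (Set.range fun m => Module.finrank ℚ (V m)).Nonempty := ⟨_, 0, rfl⟩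
    have hbd : BddAbove (Set.range fun m => Module.finrank ℚ (V m)) :=
      ⟨b, by rintro _ ⟨m, rfl⟩; exact hb m⟩
    obtain ⟨M, hM⟩ := Nat.sSup_mem hne hbd
    refine ⟨M, fun m => ?_⟩
    have h1 : Module.finrank ℚ (V M) = sSup (Set.range fun m => Module.finrank ℚ (V m)) := hM
    rw [h1]
    exact le_csSup hbd ⟨m, rfl⟩
  refine ⟨M, fun m hm => ?_⟩
  have := hf m
  exact (Submodule.eq_of_le_of_finrank_le (hV hm) (hM m)).symm

/-- The structure in the case of bounded dimensions. -/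
theorem bounded_structure (b : ℕ) (hb : ∀ n, Module.finrank ℚ (Zs n) ≤ b) :
    ∃ K : IntermediateField ℚ ℝ, Module.Finite ℚ K ∧ (z3 / Real.pi ^ 3) ^ 2 ∈ K ∧
      (∀ k, ∀ z ∈ Zs k, (z / Real.pi ^ k) ^ 2 ∈ K) ∧
      ∃ N, (∀ m, N ≤ m → ∀ x : ℝ, x ∈ Zs (2 * m) ↔ ∃ κ ∈ K, x = κ * Real.pi ^ (2 * m)) ∧
        (∀ m, N ≤ m → ∀ x : ℝ, x ∈ Zs (2 * m + 3) ↔ ∃ κ ∈ K, x = κ * (z3 * Real.pi ^ (2 * m))) ∧
        (∀ n, 2 * N + 3 ≤ n → Module.finrank ℚ (Zs n) = Module.finrank ℚ K) := by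
  obtain ⟨M1, hM1⟩ := eventually_const A A_mono finite_A b (fun m => by
    rw [finrank_A]; exact hb _)
  obtain ⟨M2, hM2⟩ := eventually_const B B_mono finite_B b (fun m => by
    rw [finrank_B]; exact hb _)
  have := finite_A M1
  have hmulA : ∀ x ∈ A M1, ∀ y ∈ A M1, x * y ∈ A M1 := by
    intro x hx y hy
    have := A_mul hx hy
    rwa [hM1 _ (by omega)] at this
  have hle : ∀ m, A m ≤ A M1 := by
    intro m
    rcases le_total m M1 with h | h
    · exact A_mono h
    · rw [hM1 m h]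
  let S : Subalgebra ℚ ℝ :=
    { carrier := A M1
      mul_mem' := fun {x y} hx hy => hmulA x hx y hy
      one_mem' := one_mem_A M1
      add_mem' := fun {x y} hx hy => (A M1).add_mem hx hy
      zero_mem' := (A M1).zero_mem
      algebraMap_mem' := fun q => by
        have := (A M1).smul_mem q (one_mem_A M1)
        rw [Rat.smul_def, mul_one] at this
        exact this }
  have hSfin : Module.Finite ℚ S := (inferInstance : Module.Finite ℚ (A M1))
  have hSmem : ∀ x : ℝ, x ∈ S ↔ x ∈ A M1 := fun x => Iff.rfl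
  have halg : ∀ x ∈ S, IsAlgebraic ℚ x := by
    intro x hx
    have : IsIntegral ℚ (⟨x, hx⟩ : S) := IsIntegral.of_finite ℚ _
    exact (this.map S.val).isAlgebraic
  let K : IntermediateField ℚ ℝ := S.toIntermediateField (fun x hx => by
    exact S.inv_mem_of_algebraic (x := ⟨x, hx⟩) (halg x hx))
  have hKmem : ∀ x : ℝ, x ∈ K ↔ x ∈ A M1 := fun x => Iff.rfl
  have hKfin : Module.Finite ℚ K := (inferInstance : Module.Finite ℚ (A M1))
  have hKrank : Module.finrank ℚ K = Module.finrank ℚ (A M1) := rfl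
  have hsq : ∀ k, ∀ z ∈ Zs k, (z / Real.pi ^ k) ^ 2 ∈ K := by
    intro k z hz
    rw [hKmem]
    apply hle k
    rw [mem_A]
    have h1 := pow_mem k z hz 2
    have hpi : Real.pi ^ k ≠ 0 := pow_ne_zero _ Real.pi_ne_zero
    have e : Real.pi ^ (2 * k) * (z / Real.pi ^ k) ^ 2 = z ^ 2 := by
      rw [mul_comm 2 k, pow_mul, div_pow]
      field_simp
    rw [e, mul_comm 2 k]
    exact h1
  have hκ : (z3 / Real.pi ^ 3) ^ 2 ∈ K := hsq 3 z3 z3_mem
  have hκ0 : (z3 / Real.pi ^ 3) ^ 2 ≠ 0 := by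
    have := z3_pos
    positivity
  -- identification of `B`
  have hBK : ∀ m, max M1 M2 ≤ m → ∀ x : ℝ, x ∈ B m ↔ x ∈ K := by
    intro m hm x
    constructor
    · intro hx
      rw [mem_B] at hx
      have h1 := mul_mem _ _ _ _ z3_mem hx
      have h2 : x * (z3 / Real.pi ^ 3) ^ 2 ∈ K := by
        rw [hKmem]
        apply hle (m + 3)
        rw [mem_A]
        have e : Real.pi ^ (2 * (m + 3)) * (x * (z3 / Real.pi ^ 3) ^ 2) =
            z3 * (z3 * Real.pi ^ (2 * m) * x) := by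
          have : Real.pi ^ (2 * (m + 3)) = Real.pi ^ (2 * m) * (Real.pi ^ 3) ^ 2 := by
            rw [← pow_mul, ← pow_add]; congr 1; 
          have hpi : Real.pi ^ 3 ≠ 0 := pow_ne_zero _ Real.pi_ne_zero
          rw [this, div_pow]
          field_simp
        rw [e]
        have e2 : 3 + (2 * m + 3) = 2 * (m + 3) := by ring
        rwa [e2] at h1
      have h3 := K.mul_mem h2 (K.inv_mem hκ)
      rwa [mul_assoc, mul_inv_cancel₀ hκ0, mul_one] at h3
    · intro hx
      rw [hKmem, mem_A] at hx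
      have h1 := mul_mem _ _ _ _ z3_mem hx
      have h2 : x ∈ B M1 := by
        rw [mem_B, mul_assoc]
        rwa [Nat.add_comm] at h1
      exact B_mono (le_trans (le_max_left _ _) hm) h2
  refine ⟨K, hKfin, hκ, hsq, max M1 M2, ?_, ?_, ?_⟩
  · intro m hm x
    have hAm : A m = A M1 := hM1 m (le_trans (le_max_left _ _) hm)
    constructor
    · intro hx
      refine ⟨x / Real.pi ^ (2 * m), ?_, ?_⟩
      · rw [hKmem, ← hAm, mem_A, mul_div_cancel₀ _ (cA_ne m)]
        exact hx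
      · rw [div_mul_cancel₀ _ (cA_ne m)]
    · rintro ⟨κ, hκ, rfl⟩
      rw [hKmem, ← hAm, mem_A] at hκ
      rwa [mul_comm κ]
  · intro m hm x
    constructor
    · intro hx
      refine ⟨x / (z3 * Real.pi ^ (2 * m)), ?_, ?_⟩
      · rw [← hBK m hm, mem_B, mul_div_cancel₀ _ (cB_ne m)]
        exact hx
      · rw [div_mul_cancel₀ _ (cB_ne m)]
    · rintro ⟨κ, hκ, rfl⟩
      rw [← hBK m hm, mem_B] at hκ
      rwa [mul_comm κ]
  · intro n hn
    rcases Nat.even_or_odd' n with ⟨m, rfl | rfl⟩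
    · rw [← finrank_A, hKrank, hM1 m]
      have := le_max_left M1 M2
      omega
    · obtain ⟨m', rfl⟩ : ∃ m', m = m' + 1 := ⟨m - 1, by omega⟩
      have e : 2 * (m' + 1) + 1 = 2 * m' + 3 := by ring
      rw [e, ← finrank_B]
      have hB : B m' = K.toSubalgebra.toSubmodule := by
        ext x
        rw [hBK m' (by omega) x]
        rfl
      rw [hB]
      rfl

/-- Either the dimensions tend to infinity, or they are bounded. -/
theorem tendsto_or_bounded :
    Tendsto (fun n => Module.finrank ℚ (Zs n)) atTop atTop ∨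
      ∃ b, ∀ n, Module.finrank ℚ (Zs n) ≤ b := by
  by_cases h : ∃ b, ∀ n, Module.finrank ℚ (Zs n) ≤ b
  · exact Or.inr h
  · left
    push Not at h
    rw [tendsto_atTop_atTop]
    intro b
    obtain ⟨n, hn⟩ := h b
    exact ⟨n + 2, fun n' hn' => hn.le.trans (finrank_mono hn')⟩

end Pool.Agent.H447R2.MZ
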