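import Mathlib
import Pool.Agent.H447R2.MZ.Struct

set_option autoImplicit false

/-! # Growth of the dimensions and transcendence degree when the sum is not direct -/

namespace Pool.Agent.H447R2.MZ

open Finset Filter Topology Polynomial

/-- The field of quotients of elements of equal weight. -/
noncomputable def KF : IntermediateField ℚ ℝ where
  carrier := {r : ℝ | ∃ m, ∃ a ∈ Zs m, ∃ b ∈ Zs m, b ≠ 0 ∧ r = a / b}
  mul_mem' := by
    rintro _ _ ⟨m, a, ha, b, hb, hb0, rfl⟩ ⟨m', c, hc, d, hd, hd0, rfl⟩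
    exact ⟨m + m', a * c, mul_mem _ _ _ _ ha hc, b * d, mul_mem _ _ _ _ hb hd,
      mul_ne_zero hb0 hd0, div_mul_div_comm _ _ _ _⟩
  one_mem' := ⟨0, 1, one_mem, 1, one_mem, one_ne_zero, by simp⟩
  add_mem' := by
    rintro _ _ ⟨m, a, ha, b, hb, hb0, rfl⟩ ⟨m', c, hc, d, hd, hd0, rfl⟩
    refine ⟨m + m', a * d + b * c, (Zs (m + m')).add_mem (mul_mem _ _ _ _ ha hd)
      (mul_mem _ _ _ _ hb hc), b * d, mul_mem _ _ _ _ hb hd, mul_ne_zero hb0 hd0, ?_⟩
    rw [div_add_div _ _ hb0 hd0]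
  zero_mem' := ⟨0, 0, (Zs 0).zero_mem, 1, one_mem, one_ne_zero, by simp⟩
  algebraMap_mem' := fun q => by
    refine ⟨0, q • (1 : ℝ), (Zs 0).smul_mem q one_mem, 1, one_mem, one_ne_zero, ?_⟩
    rw [Rat.smul_def]
    simp
  inv_mem' := by
    rintro _ ⟨m, a, ha, b, hb, hb0, rfl⟩
    by_cases ha0 : a = 0
    · refine ⟨m, 0, (Zs m).zero_mem, b, hb, hb0, ?_⟩
      simp [ha0]
    · exact ⟨m, b, hb, a, ha, ha0, by rw [inv_div]⟩

theorem mem_KF {r : ℝ} : r ∈ KF ↔ ∃ m, ∃ a ∈ Zs m, ∃ b ∈ Zs m, b ≠ 0 ∧ r = a / b := Iff.rfl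

theorem sq_mem_KF {k : ℕ} {z : ℝ} (hz : z ∈ Zs k) : (z / Real.pi ^ k) ^ 2 ∈ KF := by
  refine ⟨2 * k, z ^ 2, ?_, Real.pi ^ (2 * k), pi_pow_mem k, cA_ne k, ?_⟩
  · rw [mul_comm]
    exact pow_mem k z hz 2
  · rw [div_pow, ← pow_mul, mul_comm k 2]

theorem isAlgebraic_KF {k : ℕ} {z : ℝ} (hz : z ∈ Zs k) : IsAlgebraic KF (z / Real.pi ^ k) := by
  have h1 : IsAlgebraic KF ((z / Real.pi ^ k) ^ 2) := by
    have : (z / Real.pi ^ k) ^ 2 = algebraMap KF ℝ ⟨(z / Real.pi ^ k) ^ 2, sq_mem_KF hz⟩ := rfl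
    rw [this]
    exact isAlgebraic_algebraMap _
  exact h1.of_pow (by norm_num)

/-- independence over the field `K`, when `π` is transcendental over `K` -/
theorem pi_indep_field (K : IntermediateField ℚ ℝ) (hK : Transcendental K Real.pi) (p : ℕ)
    (c : ℕ → ℝ) (hc : ∀ j ≤ p, IsAlgebraic K (c j))
    (h : ∑ j ∈ Finset.range (p + 1), c j * Real.pi ^ j = 0) : ∀ j ≤ p, c j = 0 := by
  classical
  have ht : Transcendental (algebraicClosure K ℝ) Real.pi := hK.algebraicClosure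
  rw [transcendental_iff] at ht
  let d : ℕ → algebraicClosure K ℝ := fun j =>
    if hj : j ≤ p then ⟨c j, (mem_algebraicClosure_iff).2 (hc j hj)⟩ else 0
  let P : (algebraicClosure K ℝ)[X] := ∑ j ∈ Finset.range (p + 1), Polynomial.monomial j (d j)
  have hP : Polynomial.aeval Real.pi P = 0 := by
    simp only [P, map_sum, Polynomial.aeval_monomial]
    rw [← h]
    apply Finset.sum_congr rfl
    intro j hj
    have hj' : j ≤ p := by simpa [Nat.lt_succ_iff] using hj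
    simp only [d, hj', dif_pos]
    rfl
  have h0 := ht P hP
  intro j hj
  have h1 : P.coeff j = d j := by
    simp only [P, Polynomial.finsetSum_coeff, Polynomial.coeff_monomial]
    rw [Finset.sum_ite_eq']
    simp [hj]
  rw [h0, Polynomial.coeff_zero] at h1
  have h2 : ((d j : algebraicClosure K ℝ) : ℝ) = 0 := by rw [← h1]; rfl
  simpa [d, hj] using h2

/-- If the sum up to `p` is not direct then `π` is algebraic over the field of quotients of
elements of equal weight. -/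
theorem algebraic_of_not_direct (p : ℕ) (h : ¬ Direct p) : IsAlgebraic KF Real.pi := by
  by_contra hK
  apply h
  intro z hz hs j hj
  have h1 := pi_indep_field KF hK p (fun j => z j / Real.pi ^ j)
    (fun j hj => isAlgebraic_KF (hz j hj)) (by
    rw [← hs]
    apply Finset.sum_congr rfl
    intro j _
    have : Real.pi ^ j ≠ 0 := pow_ne_zero _ Real.pi_ne_zero
    field_simp) j hj
  have : Real.pi ^ j ≠ 0 := pow_ne_zero _ Real.pi_ne_zero
  simpa [this] using h1

theorem isAlgebraic_KF' (hpi : IsAlgebraic KF Real.pi) {k : ℕ} {z : ℝ} (hz : z ∈ Zs k) :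
    IsAlgebraic KF z := by
  have h1 := (isAlgebraic_KF hz).mul (hpi.pow k)
  rwa [div_mul_cancel₀ _ (pow_ne_zero _ Real.pi_ne_zero)] at h1

/-- `s` algebraically independent elements of the field of equal weight quotients -/
theorem exists_indep (hpi : IsAlgebraic KF Real.pi) (s : ℕ) (x : Fin s → ℝ)
    (hx : ∀ i, ∃ w, x i ∈ Zs w) (hind : AlgebraicIndependent ℚ x) :
    ∃ y : Fin s → ℝ, (∀ i, y i ∈ KF) ∧ AlgebraicIndependent ℚ y := by
  classical
  let L := algebraicClosure KF ℝ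
  let x' : Fin s → L := fun i => ⟨x i, mem_algebraicClosure_iff.2 (by
    obtain ⟨w, hw⟩ := hx i
    exact isAlgebraic_KF' hpi hw)⟩
  have hx' : AlgebraicIndependent ℚ x' := by
    have h1 := (AlgHom.algebraicIndependent_iff (x := x') (IsScalarTower.toAlgHom ℚ L ℝ)
      (algebraMap L ℝ).injective)
    exact h1.1 hind
  have h1 : (Cardinal.mk (Fin s)) ≤ Algebra.trdeg ℚ L := hx'.cardinalMk_le_trdeg
  have h2 : Algebra.trdeg ℚ KF + Algebra.trdeg KF L = Algebra.trdeg ℚ L :=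
    trdeg_add_eq ℚ KF
  have h3 : Algebra.trdeg KF L = 0 := trdeg_eq_zero
  rw [h3, add_zero] at h2
  obtain ⟨t, ht⟩ := exists_isTranscendenceBasis ℚ KF
  have h4 := ht.cardinalMk_eq_trdeg
  rw [← h2, ← h4, Cardinal.le_def] at h1
  obtain ⟨e⟩ := h1
  refine ⟨fun i => ((e i : KF) : ℝ), fun i => (e i : KF).2, ?_⟩
  have h5 : AlgebraicIndependent ℚ (fun i : Fin s => ((e i : t) : KF)) := ht.1.comp e e.injective
  exact h5.map' (f := KF.val) KF.val.injective

/-- a product of elements of weights `w i` -/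
theorem prod_mem {ι : Type*} (S : Finset ι) (w : ι → ℕ) (y : ι → ℝ) (h : ∀ i ∈ S, y i ∈ Zs (w i)) :
    ∏ i ∈ S, y i ∈ Zs (∑ i ∈ S, w i) := by
  classical
  induction S using Finset.induction_on with
  | empty => simpa using one_mem
  | insert i S hi ih =>
    rw [Finset.prod_insert hi, Finset.sum_insert hi]
    exact mul_mem _ _ _ _ (h i (by simp)) (ih (fun j hj => h j (by simp [hj])))

/-- common denominators -/
theorem common_den (s : ℕ) (y : Fin s → ℝ) (hy : ∀ i, y i ∈ KF) :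
    ∃ m, 1 ≤ m ∧ ∃ b ∈ Zs m, b ≠ 0 ∧ ∃ a : Fin s → ℝ, (∀ i, a i ∈ Zs m) ∧ ∀ i, y i = a i / b := by
  classical
  choose m a ha b hb hb0 hy using fun i => mem_KF.1 (hy i)
  refine ⟨2 + ∑ i, m i, by omega, Real.pi ^ 2 * ∏ i, b i,
    mul_mem _ _ _ _ pi_sq_mem (prod_mem _ _ _ (fun i _ => hb i)),
    mul_ne_zero (pow_ne_zero _ Real.pi_ne_zero) (Finset.prod_ne_zero_iff.2 fun i _ => hb0 i),
    fun i => Real.pi ^ 2 * (a i * ∏ j ∈ Finset.univ.erase i, b j), fun i => ?_, fun i => ?_⟩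
  · apply mul_mem _ _ _ _ pi_sq_mem
    have h1 := mul_mem _ _ _ _ (ha i) (prod_mem (Finset.univ.erase i) m b (fun j _ => hb j))
    rwa [Finset.add_sum_erase _ _ (Finset.mem_univ i)] at h1
  · rw [hy i, ← Finset.mul_prod_erase _ _ (Finset.mem_univ i)]
    have h1 : ∏ j ∈ Finset.univ.erase i, b j ≠ 0 := Finset.prod_ne_zero_iff.2 fun i _ => hb0 i
    have h2 := hb0 i
    have h3 := Real.pi_ne_zero
    field_simp

theorem monomials_indep (s : ℕ) (y : Fin s → ℝ) (hy : AlgebraicIndependent ℚ y) :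
    LinearIndependent ℚ (fun α : Fin s → ℕ => ∏ i, y i ^ (α i)) := by
  have hinj : Function.Injective (MvPolynomial.aeval y : MvPolynomial (Fin s) ℚ →ₐ[ℚ] ℝ) := hy
  have h1 := (MvPolynomial.basisMonomials (Fin s) ℚ).linearIndependent.map'
    (MvPolynomial.aeval y).toLinearMap (LinearMap.ker_eq_bot.2 hinj)
  have h2 := h1.comp (fun α : Fin s → ℕ => Finsupp.equivFunOnFinite.symm α)
    Finsupp.equivFunOnFinite.symm.injective
  have e : (fun α : Fin s → ℕ => ∏ i, y i ^ (α i)) =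
      (⇑(MvPolynomial.aeval y).toLinearMap ∘ ⇑(MvPolynomial.basisMonomials (Fin s) ℚ)) ∘
        (fun α : Fin s → ℕ => Finsupp.equivFunOnFinite.symm α) := by
    funext α
    simp [MvPolynomial.aeval_monomial, Finsupp.prod_fintype]
  rw [e]
  exact h2

/-- growth from `s` algebraically independent quotients of equal weight -/
theorem growth_indep (s : ℕ) (y : Fin s → ℝ) (hy : ∀ i, y i ∈ KF) (hind : AlgebraicIndependent ℚ y) :
    ∃ D, 1 ≤ D ∧ ∀ n, 2 ≤ n → ((n - 2) / D + 1) ^ s ≤ Module.finrank ℚ (Zs n) := by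
  classical
  obtain ⟨m, hm, b, hb, hb0, a, ha, hab⟩ := common_den s y hy
  rcases Nat.eq_zero_or_pos s with rfl | hs
  · refine ⟨1, le_rfl, fun n hn => ?_⟩
    rw [pow_zero]
    have := finite_Zs n
    obtain ⟨c, hc, hc0⟩ := exists_ne n (by omega)
    have : Nontrivial (Zs n) := ⟨⟨c, hc⟩, 0, fun h => hc0 (congrArg Subtype.val h)⟩
    exact Module.finrank_pos
  refine ⟨m * s, Nat.mul_pos hm hs, fun n hn => ?_⟩
  set M := (n - 2) / (m * s) with hM
  have hMn : m * s * M ≤ n - 2 := Nat.mul_div_le _ _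
  obtain ⟨c, hc, hc0⟩ := exists_ne (n - m * s * M) (by omega)
  -- the family
  let v : (Fin s → Fin (M + 1)) → ℝ := fun α =>
    (c * b ^ (s * M)) * ∏ i, y i ^ ((α i : ℕ))
  have hv : LinearIndependent ℚ v := by
    have h1 := (monomials_indep s y hind).comp
      (fun α : Fin s → Fin (M + 1) => fun i => ((α i : Fin (M + 1)) : ℕ)) (by
        intro α β h
        funext i
        exact Fin.ext (congrFun h i))
    exact h1.map' (LinearMap.mulLeft ℚ (c * b ^ (s * M)))
      (LinearMap.ker_eq_bot.2 (mul_right_injective₀ (mul_ne_zero hc0 (pow_ne_zero _ hb0))))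
  have hvm : ∀ α, v α ∈ Zs n := by
    intro α
    have hsum : ∑ i, ((α i : Fin (M + 1)) : ℕ) ≤ s * M := by
      calc ∑ i, ((α i : Fin (M + 1)) : ℕ) ≤ ∑ _i : Fin s, M :=
            Finset.sum_le_sum fun i _ => Nat.lt_succ_iff.1 (α i).2
        _ = s * M := by simp
    have h1 : ∏ i, a i ^ ((α i : Fin (M + 1)) : ℕ) ∈ Zs (∑ i, m * ((α i : Fin (M + 1)) : ℕ)) :=
      prod_mem _ _ _ (fun i _ => pow_mem m (a i) (ha i) _)
    have h2 := pow_mem m b hb (s * M - ∑ i, ((α i : Fin (M + 1)) : ℕ))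
    have h3 := mul_mem _ _ _ _ hc (mul_mem _ _ _ _ h1 h2)
    have e1 : n - m * s * M + (∑ i, m * ((α i : Fin (M + 1)) : ℕ) +
        m * (s * M - ∑ i, ((α i : Fin (M + 1)) : ℕ))) = n := by
      rw [← Finset.mul_sum, ← Nat.mul_add, Nat.add_sub_cancel' hsum, ← Nat.mul_assoc]
      omega
    rw [e1] at h3
    have e2 : v α = c * ((∏ i, a i ^ ((α i : Fin (M + 1)) : ℕ)) *
        b ^ (s * M - ∑ i, ((α i : Fin (M + 1)) : ℕ))) := by
      simp only [v]
      have e3 : b ^ (s * M) = b ^ (s * M - ∑ i, ((α i : Fin (M + 1)) : ℕ)) *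
          ∏ i, b ^ ((α i : Fin (M + 1)) : ℕ) := by
        rw [Finset.prod_pow_eq_pow_sum, ← pow_add, Nat.sub_add_cancel hsum]
      have e4 : ∏ i, y i ^ ((α i : Fin (M + 1)) : ℕ) =
          (∏ i, a i ^ ((α i : Fin (M + 1)) : ℕ)) / ∏ i, b ^ ((α i : Fin (M + 1)) : ℕ) := by
        rw [← Finset.prod_div_distrib]
        exact Finset.prod_congr rfl fun i _ => by rw [hab i, div_pow]
      rw [e3, e4]
      have h5 : ∏ i, b ^ ((α i : Fin (M + 1)) : ℕ) ≠ 0 :=
        Finset.prod_ne_zero_iff.2 fun i _ => pow_ne_zero _ hb0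
      field_simp
    rw [e2]
    exact h3
  have := finite_Zs n
  let w : (Fin s → Fin (M + 1)) → Zs n := fun α => ⟨v α, hvm α⟩
  have hw : LinearIndependent ℚ w := LinearIndependent.of_comp (Zs n).subtype hv
  have h6 := hw.fintype_card_le_finrank
  simpa using h6

/-- If the sum is not direct, then the dimensions grow at least like `n ^ s` as soon as there are
`s` algebraically independent elements. -/
theorem growth_of_not_direct (p : ℕ) (h : ¬ Direct p) (s : ℕ) (x : Fin s → ℝ)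
    (hx : ∀ i, ∃ w, x i ∈ Zs w) (hind : AlgebraicIndependent ℚ x) :
    ∃ D, 1 ≤ D ∧ ∀ n, 2 ≤ n → ((n - 2) / D + 1) ^ s ≤ Module.finrank ℚ (Zs n) := by
  obtain ⟨y, hy, hyi⟩ := exists_indep (algebraic_of_not_direct p h) s x hx hind
  exact growth_indep s y hy hyi

end Pool.Agent.H447R2.MZ
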