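import Mathlib
import Pool.Agent.H447R2.MZ.Trd

set_option autoImplicit false

/-! # Algebraic zeta values force large dimensions -/

namespace Pool.Agent.H447R2.MZ

open Finset Filter Topology Polynomial

/-- `growth` in terms of `finrank` -/
theorem growth' (k : ℕ) (z : ℝ) (hz : z ∈ Zs k) (ht : Transcendental ℚ (z / Real.pi ^ k))
    (n : ℕ) (hn : 2 ≤ n) :
    (n - 3 * (n % 2)) / (2 * k) + 1 ≤ Module.finrank ℚ (Zs n) := by
  have h := growth k z hz ht n hn
  have := finite_Zs n
  rw [← Module.finrank_eq_rank] at h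
  exact_mod_cast h

/-- The numbers `Y c * π ^ (2 c)`, `Y c` algebraic and nonzero, are linearly independent. -/
theorem alg_indep (n : ℕ) (C : Finset ℕ) (Y : ℕ → ℝ) (hY0 : ∀ c ∈ C, Y c ≠ 0)
    (hYa : ∀ c ∈ C, IsAlgebraic ℚ (Y c)) (hY : ∀ c ∈ C, Y c * Real.pi ^ (2 * c) ∈ Zs n) :
    C.card ≤ Module.finrank ℚ (Zs n) := by
  classical
  have := finite_Zs n
  let v : C → Zs n := fun c => ⟨Y c * Real.pi ^ (2 * (c : ℕ)), hY c c.2⟩
  have hv : LinearIndependent ℚ v := by
    rw [Fintype.linearIndependent_iff]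
    intro g hg i
    have h1 : ∑ c : C, (g c : ℝ) * Y c * Real.pi ^ (2 * (c : ℕ)) = 0 := by
      have h2 := congrArg (Zs n).subtype hg
      rw [map_sum, map_zero] at h2
      rw [← h2]
      apply Finset.sum_congr rfl
      intro c _
      rw [map_smul]
      simp only [v, Submodule.subtype_apply, Rat.smul_def]
      ring
    -- as a polynomial in `π`
    set p := 2 * (C.sup id) with hp
    let d : ℕ → ℝ := fun j => if h : j % 2 = 0 ∧ j / 2 ∈ C then
      ((g ⟨j / 2, h.2⟩ : ℚ) : ℝ) * Y (j / 2) else 0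
    have hd : ∀ j ≤ p, IsAlgebraic ℚ (d j) := by
      intro j _
      simp only [d]
      split_ifs with h
      · exact (isAlgebraic_ratCast ℚ _).mul (hYa _ h.2)
      · exact isAlgebraic_zero
    have hsum : ∑ j ∈ Finset.range (p + 1), d j * Real.pi ^ j = 0 := by
      rw [← h1]
      symm
      have e1 : ∑ c : C, (g c : ℝ) * Y c * Real.pi ^ (2 * (c : ℕ)) =
          ∑ c : C, d (2 * (c : ℕ)) * Real.pi ^ (2 * (c : ℕ)) := by
        apply Finset.sum_congr rfl
        intro c _
        have h3 : (2 * (c : ℕ)) % 2 = 0 ∧ (2 * (c : ℕ)) / 2 ∈ C :=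
          ⟨by omega, by rw [Nat.mul_div_cancel_left _ (by norm_num)]; exact c.2⟩
        simp only [d]
        rw [dif_pos h3]
        congr 2
        · congr 2
          exact Subtype.ext (by simp)
        · congr 1
          simp
      rw [e1, ← Finset.sum_coe_sort C (fun c => d (2 * c) * Real.pi ^ (2 * c)) |>.symm]
      rw [← Finset.sum_image (s := C) (g := fun c => 2 * c) (f := fun j => d j * Real.pi ^ j)
        (fun a _ b _ h => by simpa using h)]
      apply Finset.sum_subset
      · intro j hj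
        obtain ⟨c, hc, rfl⟩ := Finset.mem_image.1 hj
        rw [Finset.mem_range]
        have : c ≤ C.sup id := Finset.le_sup (f := id) hc
        omega
      · intro j _ hj
        have : ¬ (j % 2 = 0 ∧ j / 2 ∈ C) := by
          rintro ⟨h2, h3⟩
          exact hj (Finset.mem_image.2 ⟨j / 2, h3, by omega⟩)
        simp only [d]
        rw [dif_neg this, zero_mul]
    have h4 := pi_indep p d hd hsum (2 * (i : ℕ)) (by
      have : (i : ℕ) ≤ C.sup id := Finset.le_sup (f := id) i.2
      omega)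
    have h3 : (2 * (i : ℕ)) % 2 = 0 ∧ (2 * (i : ℕ)) / 2 ∈ C :=
      ⟨by omega, by rw [Nat.mul_div_cancel_left _ (by norm_num)]; exact i.2⟩
    simp only [d] at h4
    rw [dif_pos h3] at h4
    have h5 : (⟨2 * (i : ℕ) / 2, h3.2⟩ : C) = i := Subtype.ext (by simp)
    rw [h5] at h4
    have h6 : Y (2 * (i : ℕ) / 2) ≠ 0 := hY0 _ h3.2
    have h7 := (mul_eq_zero.1 h4).resolve_right h6
    exact_mod_cast h7
  have h8 := hv.fintype_card_le_finrank
  simpa using h8

/-- products of algebraic elements -/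
theorem closure_alg (S : Set ℕ) (hS : ∀ k ∈ S, ∃ y ∈ Zs k, y ≠ 0 ∧ IsAlgebraic ℚ y) (w : ℕ)
    (hw : w ∈ AddSubmonoid.closure S) : ∃ y ∈ Zs w, y ≠ 0 ∧ IsAlgebraic ℚ y := by
  induction hw using AddSubmonoid.closure_induction with
  | mem x hx => exact hS x hx
  | zero => exact ⟨1, one_mem, one_ne_zero, isAlgebraic_one⟩
  | add x y _ _ hx hy =>
    obtain ⟨a, ha, ha0, haa⟩ := hx
    obtain ⟨b, hb, hb0, hba⟩ := hy
    exact ⟨a * b, mul_mem _ _ _ _ ha hb, mul_ne_zero ha0 hb0, haa.mul hba⟩

open Classical in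
/-- If weights in `S` contain nonzero algebraic elements, the dimensions are large. -/
theorem growth_alg (S : Set ℕ) (hS : ∀ k ∈ S, ∃ y ∈ Zs k, y ≠ 0 ∧ IsAlgebraic ℚ y) (n : ℕ) :
    ((Finset.range (n / 2 + 1)).filter (fun c => n - 2 * c ∈ AddSubmonoid.closure S)).card ≤
      Module.finrank ℚ (Zs n) := by
  have h := closure_alg S hS
  choose Y hY hY0 hYa using h
  apply alg_indep n _ (fun c => if hc : n - 2 * c ∈ AddSubmonoid.closure S then Y _ hc else 0)
  · intro c hc
    have hc' := (Finset.mem_filter.1 hc).2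
    rw [dif_pos hc']
    exact hY0 _ _
  · intro c hc
    have hc' := (Finset.mem_filter.1 hc).2
    rw [dif_pos hc']
    exact hYa _ _
  · intro c hc
    have hc' := (Finset.mem_filter.1 hc).2
    have hc2 := Finset.mem_range.1 (Finset.mem_filter.1 hc).1
    rw [dif_pos hc']
    have h1 := mul_mem _ _ _ _ (hY _ hc') (pi_pow_mem c)
    have e : n - 2 * c + 2 * c = n := by omega
    rwa [e] at h1

/-- If some nonzero element of positive weight is algebraic, the sum is not direct. -/
theorem not_direct_of_algebraic (k : ℕ) (hk : 1 ≤ k) (y : ℝ) (hy : y ∈ Zs k) (hy0 : y ≠ 0)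
    (hya : IsAlgebraic ℚ y) : ∃ p, ¬ Direct p := by
  classical
  obtain ⟨P, hP0, hP⟩ := hya
  refine ⟨k * P.natDegree, fun hD => hP0 ?_⟩
  let z : ℕ → ℝ := fun j => if k ∣ j then (P.coeff (j / k) : ℝ) * y ^ (j / k) else 0
  have hz : ∀ j ≤ k * P.natDegree, z j ∈ Zs j := by
    intro j _
    simp only [z]
    split_ifs with h
    · obtain ⟨i, rfl⟩ := h
      rw [Nat.mul_div_cancel_left _ (by omega : 0 < k), ← Rat.smul_def]
      exact (Zs _).smul_mem _ (pow_mem k y hy i)
    · exact (Zs j).zero_mem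
  have hs : ∑ j ∈ Finset.range (k * P.natDegree + 1), z j = 0 := by
    rw [Polynomial.aeval_eq_sum_range] at hP
    rw [← hP]
    symm
    have e1 : ∀ i ∈ Finset.range (P.natDegree + 1), P.coeff i • y ^ i = z (k * i) := by
      intro i _
      simp only [z]
      rw [if_pos (Dvd.intro _ rfl), Nat.mul_div_cancel_left _ (by omega : 0 < k), Rat.smul_def]
    rw [Finset.sum_congr rfl e1]
    rw [← Finset.sum_image (s := Finset.range (P.natDegree + 1)) (g := fun i => k * i) (f := z)
      (fun a _ b _ h => by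
        have : k * a = k * b := h
        exact Nat.eq_of_mul_eq_mul_left (by omega) this)]
    apply Finset.sum_subset
    · intro j hj
      obtain ⟨i, hi, rfl⟩ := Finset.mem_image.1 hj
      rw [Finset.mem_range] at hi ⊢
      have : k * i ≤ k * P.natDegree := Nat.mul_le_mul_left _ (by omega)
      omega
    · intro j hj hj2
      simp only [z]
      rw [if_neg]
      rintro ⟨i, rfl⟩
      apply hj2
      rw [Finset.mem_image]
      refine ⟨i, ?_, rfl⟩
      rw [Finset.mem_range] at hj ⊢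
      by_contra hlt
      have : k * (P.natDegree + 1) ≤ k * i := Nat.mul_le_mul_left _ (by omega)
      rw [Nat.mul_add] at this
      omega
  ext i
  rw [Polynomial.coeff_zero]
  by_cases hi : i ≤ P.natDegree
  · have h1 := hD z hz hs (k * i) (Nat.mul_le_mul_left _ hi)
    simp only [z] at h1
    rw [if_pos (Dvd.intro _ rfl), Nat.mul_div_cancel_left _ (by omega : 0 < k)] at h1
    have h2 := (mul_eq_zero.1 h1).resolve_right (pow_ne_zero _ hy0)
    exact_mod_cast h2
  · exact Polynomial.coeff_eq_zero_of_natDegree_lt (by omega)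

/-- If the dimension in one weight is at most `m`, then the squares of the normalised elements
have degree at most `m`. -/
theorem degree_le (k : ℕ) (z : ℝ) (hz : z ∈ Zs k) (m n : ℕ) (hn : 2 * k * m + 3 * (n % 2) ≤ n)
    (hm : Module.finrank ℚ (Zs n) ≤ m) (hn2 : 2 ≤ n) :
    ∃ P : ℚ[X], P ≠ 0 ∧ P.natDegree ≤ m ∧ Polynomial.aeval ((z / Real.pi ^ k) ^ 2) P = 0 := by
  classical
  have hfin := finite_Zs n
  set x := (z / Real.pi ^ k) ^ 2 with hx
  have hpi : Real.pi ≠ 0 := Real.pi_ne_zero
  have hz2 : z ^ 2 ∈ Zs (2 * k) := by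
    have := pow_mem k z hz 2
    rwa [mul_comm k 2] at this
  -- a nonzero `c` with `c x ^ i` of weight `n` for `i ≤ m`
  obtain ⟨c, hc0, hc⟩ : ∃ c : ℝ, c ≠ 0 ∧ ∀ i ≤ m, c * x ^ i ∈ Zs n := by
    have key : ∀ (e : ℕ) (c₀ : ℝ), c₀ ∈ Zs e → c₀ ≠ 0 → e ≤ n → (n - e) % 2 = 0 →
        2 * k * m ≤ n - e → ∃ c : ℝ, c ≠ 0 ∧ ∀ i ≤ m, c * x ^ i ∈ Zs n := by
      intro e c₀ hc₀ hc₀0 hen hpar hle
      obtain ⟨r, hr⟩ : ∃ r, n - e = 2 * r := ⟨(n - e) / 2, by omega⟩
      refine ⟨c₀ * Real.pi ^ (2 * r), mul_ne_zero hc₀0 (pow_ne_zero _ hpi), fun i hi => ?_⟩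
      have h1 : k * i ≤ r := by
        have : k * i ≤ k * m := Nat.mul_le_mul_left _ hi
        have h2 : 2 * (k * m) ≤ 2 * r := by rw [← hr]; linarith
        omega
      have h2 := mul_mem _ _ _ _ hc₀ (mul_mem _ _ _ _ (pow_mem (2 * k) _ hz2 i)
        (pi_pow_mem (r - k * i)))
      have e1 : e + (2 * k * i + 2 * (r - k * i)) = n := by
        rw [Nat.mul_assoc, ← Nat.mul_add]
        omega
      rw [e1] at h2
      have e2 : Real.pi ^ (2 * r) = Real.pi ^ (2 * (k * i)) * Real.pi ^ (2 * (r - k * i)) := by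
        rw [← pow_add]; congr 1; omega
      have e3 : c₀ * Real.pi ^ (2 * r) * x ^ i =
          c₀ * ((z ^ 2) ^ i * Real.pi ^ (2 * (r - k * i))) := by
        rw [hx, e2, div_pow, div_pow]
        have : ((Real.pi ^ k) ^ 2) ^ i = Real.pi ^ (2 * (k * i)) := by
          rw [← pow_mul, ← pow_mul]; congr 1; ring
        rw [this]
        field_simp
      rw [e3]
      exact h2
    rcases Nat.even_or_odd' n with ⟨r, hr | hr⟩
    · exact key 0 1 one_mem one_ne_zero (by omega) (by omega) (by omega)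
    · have : n % 2 = 1 := by omega
      rw [this] at hn
      exact key 3 z3 z3_mem z3_pos.ne' (by omega) (by omega) (by omega)
  by_contra hcon
  push Not at hcon
  -- the family would be independent
  let v : Fin (m + 1) → Zs n := fun i => ⟨c * x ^ (i : ℕ), hc i (Nat.lt_succ_iff.1 i.2)⟩
  have hv : LinearIndependent ℚ v := by
    rw [Fintype.linearIndependent_iff]
    intro g hg i
    by_contra hgi
    let P : ℚ[X] := ∑ j : Fin (m + 1), Polynomial.monomial (j : ℕ) (g j)
    have hco : ∀ j : Fin (m + 1), P.coeff j = g j := by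
      intro j
      simp only [P, Polynomial.finsetSum_coeff, Polynomial.coeff_monomial]
      rw [Finset.sum_eq_single j]
      · simp
      · intro b _ hb
        rw [if_neg]
        exact fun h => hb (Fin.ext h)
      · simp
    have hP0 : P ≠ 0 := by
      intro h
      apply hgi
      rw [← hco i, h, Polynomial.coeff_zero]
    have hPd : P.natDegree ≤ m := by
      apply Polynomial.natDegree_sum_le_of_forall_le
      intro j _
      exact (Polynomial.natDegree_monomial_le _).trans (Nat.lt_succ_iff.1 j.2)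
    apply hcon P hP0 hPd
    simp only [P, map_sum, Polynomial.aeval_monomial]
    have h2 := congrArg (Zs n).subtype hg
    rw [map_sum, map_zero] at h2
    have h3 : c * ∑ j : Fin (m + 1), (algebraMap ℚ ℝ) (g j) * x ^ (j : ℕ) = 0 := by
      rw [← h2, Finset.mul_sum]
      apply Finset.sum_congr rfl
      intro j _
      rw [map_smul]
      simp only [v, Submodule.subtype_apply, Rat.smul_def, eq_ratCast]
      ring
    exact (mul_eq_zero.1 h3).resolve_left hc0
  have h4 := hv.fintype_card_le_finrank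
  simp only [Fintype.card_fin] at h4
  omega

/-- A nonzero algebraic element of positive weight is a transcendental multiple of `π ^ k`. -/
theorem transcendental_div (k : ℕ) (hk : 1 ≤ k) (y : ℝ) (hy0 : y ≠ 0) (hya : IsAlgebraic ℚ y) :
    Transcendental ℚ (y / Real.pi ^ k) := by
  intro ha
  have h1 : IsAlgebraic ℚ (Real.pi ^ k) := by
    have h2 := hya.mul ha.inv
    have e : y * (y / Real.pi ^ k)⁻¹ = Real.pi ^ k := by
      have : Real.pi ^ k ≠ 0 := pow_ne_zero _ Real.pi_ne_zero
      rw [inv_div]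
      field_simp
    rwa [e] at h2
  exact Pool.Agent.H340R2.LW.transcendental_pi (h1.of_pow (by omega))

/-- numbers that are sums of elements of a closed set -/
theorem closure_odd (S : Set ℕ) (k₀ : ℕ) (hS : ∀ k, k₀ ≤ k → 2 * k + 1 ∈ S) (w : ℕ)
    (hw : 4 * k₀ + 2 ≤ w) : w ∈ AddSubmonoid.closure S := by
  rcases Nat.even_or_odd' w with ⟨m, rfl | rfl⟩
  · have h1 : 2 * k₀ + 1 ∈ AddSubmonoid.closure S := AddSubmonoid.subset_closure (hS k₀ le_rfl)
    have h2 : 2 * (m - k₀ - 1) + 1 ∈ AddSubmonoid.closure S :=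
      AddSubmonoid.subset_closure (hS _ (by omega))
    have h3 := AddSubmonoid.add_mem _ h1 h2
    have e : 2 * k₀ + 1 + (2 * (m - k₀ - 1) + 1) = 2 * m := by omega
    rwa [e] at h3
  · exact AddSubmonoid.subset_closure (hS m (by omega))

/-- If all but finitely many odd weights contain nonzero algebraic elements then
`dim ≥ n / 2 - C`. -/
theorem growth_half (S : Set ℕ) (hS : ∀ k ∈ S, ∃ y ∈ Zs k, y ≠ 0 ∧ IsAlgebraic ℚ y) (k₀ : ℕ)
    (hk : ∀ k, k₀ ≤ k → 2 * k + 1 ∈ S) (n : ℕ) :
    n / 2 ≤ Module.finrank ℚ (Zs n) + (2 * k₀ + 1) := by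
  classical
  have h := growth_alg S hS n
  have hsub : Finset.range (n / 2 - (2 * k₀ + 1)) ⊆
      (Finset.range (n / 2 + 1)).filter (fun c => n - 2 * c ∈ AddSubmonoid.closure S) := by
    intro c hc
    rw [Finset.mem_range] at hc
    rw [Finset.mem_filter, Finset.mem_range]
    exact ⟨by omega, closure_odd S k₀ hk _ (by omega)⟩
  have h2 := Finset.card_le_card hsub
  rw [Finset.card_range] at h2
  have h3 : ((Finset.range (n / 2 + 1)).filter
      (fun c => n - 2 * c ∈ AddSubmonoid.closure S)).card ≤ Module.finrank ℚ (Zs n) := by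
    convert h
  omega

end Pool.Agent.H447R2.MZ
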